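import Pool.Agent.H79.BP.Main

/-!
# Recognising beta-perfect graphs is coNP-complete

The adjacency matrices of the finite graphs that are not `β`-perfect form a language in `NP`.
Every language in `NP` reduces to this one by a function computed by a Turing machine in polynomial
time, all of whose values are adjacency matrices of graphs without even holes. Hence there is a
polynomial-time algorithm that recognises `β`-perfect graphs iff `P = NP`, and the same holds for
the recognition of `β`-perfect graphs among the graphs without even holes.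
-/

namespace Pool.Agent.Results.MP_663051_lc.RecognitionIsCoNPComplete

open Pool.Agent.PPS Pool.Agent.H64.Cook Pool.Agent.H79.Thr Pool.Agent.H79.BP

/-- Recognising `β`-perfect graphs is coNP-complete, also among the graphs without even holes; it is
possible in polynomial time, in general or for graphs without even holes, iff `P = NP`. -/
theorem result :
    {x : List Bool | ∃ (n : ℕ) (G : SimpleGraph (Fin n)), x = enc G ∧ ¬ BetaPerfect G} ∈ NP ∧
    (∀ L ∈ NP, ∃ f ∈ FP, ∀ x, ∃ (n : ℕ) (G : SimpleGraph (Fin n)), f x = enc G ∧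
      EvenHoleFree G ∧ (x ∈ L ↔ ¬ BetaPerfect G)) ∧
    ((∃ R ∈ P, ∀ (n : ℕ) (G : SimpleGraph (Fin n)), enc G ∈ R ↔ BetaPerfect G) ↔ P = NP) ∧
    ((∃ R ∈ P, ∀ (n : ℕ) (G : SimpleGraph (Fin n)), EvenHoleFree G →
      (enc G ∈ R ↔ BetaPerfect G)) ↔ P = NP) := by
  have h1 : P = NP → ∃ R ∈ P, ∀ (n : ℕ) (G : SimpleGraph (Fin n)), enc G ∈ R ↔ BetaPerfect G := by
    intro h
    have h2 := inNP
    rw [← h, mem_P_iff] at h2
    refine ⟨{x | ¬ ∃ (n : ℕ) (G : SimpleGraph (Fin n)), x = enc G ∧ ¬ BetaPerfect G}, ?_, ?_⟩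
    · rw [mem_P_iff]
      have h3 := PT.not' h2
      convert h3 using 2 with w
      rw [Bool.eq_iff_iff]
      simp
    · intro n G
      simp only [Set.mem_ofPred_eq, not_exists, not_and, not_not]
      refine ⟨fun h => h n G rfl, fun hG n' G' hG' => ?_⟩
      obtain rfl : n = n' := by
        have h4 := congrArg List.length hG'
        rw [enc_len, enc_len] at h4
        exact Nat.mul_self_inj.1 h4
      obtain rfl : G = G' := by
        ext u v
        rw [← ment_enc G u v, ← ment_enc G' u v, hG']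
      exact hG
  have h2 : (∃ R ∈ P, ∀ (n : ℕ) (G : SimpleGraph (Fin n)), enc G ∈ R ↔ BetaPerfect G) →
      ∃ R ∈ P, ∀ (n : ℕ) (G : SimpleGraph (Fin n)), EvenHoleFree G →
        (enc G ∈ R ↔ BetaPerfect G) := by
    rintro ⟨R, hR, h⟩
    exact ⟨R, hR, fun n G _ => h n G⟩
  have h3 : (∃ R ∈ P, ∀ (n : ℕ) (G : SimpleGraph (Fin n)), EvenHoleFree G →
      (enc G ∈ R ↔ BetaPerfect G)) → P = NP := by
    rintro ⟨R, hR, h⟩
    refine Set.Subset.antisymm P_subset_NP ?_
    intro L hL
    obtain ⟨f, hf, hfL⟩ := hard hL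
    rw [mem_FP_iff] at hf
    rw [mem_P_iff] at hR ⊢
    have h4 := PT.not' (hR.comp' hf)
    convert h4 using 2 with x
    obtain ⟨n, G, hG, hE, hx⟩ := hfL x
    rw [Bool.eq_iff_iff]
    simp only [decide_eq_true_eq, Bool.not_eq_true', decide_eq_false_iff_not]
    rw [hx, hG, h n G hE]
  exact ⟨inNP, fun L hL => hard hL, ⟨fun h => h3 (h2 h), h1⟩, ⟨h3, fun h => h2 (h1 h)⟩⟩

end Pool.Agent.Results.MP_663051_lc.RecognitionIsCoNPComplete
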